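import Pool.Agent.W758.AHC.Stm

set_option autoImplicit false

namespace Pool.Agent.W863.AHC

open Pool.Agent.W758.AHC

theorem sum_ind {ι : Type} [DecidableEq ι] (a s : Finset ι) :
    ∑ i ∈ s, ind a i = ((a ∩ s).card : ℚ) := by
  unfold ind
  rw [Finset.sum_boole, Finset.filter_mem_eq_inter, Finset.inter_comm]

theorem key {ι : Type} [Fintype ι] [DecidableEq ι] (l : ℕ) (I : Finset ι) (v : ι → ℚ)
    (c : ι → ι → ℚ) (a b : Finset ι)
    (h1 : ∀ j, j ∉ I → ind a j = v j + ∑ i ∈ a ∩ I, c i j) (hl : (a ∩ b).card = l) :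
    ∑ i ∈ a ∩ I, (ind b i + ∑ j ∈ b ∩ Iᶜ, c i j) = l - ∑ j ∈ b ∩ Iᶜ, v j := by
  have e1 : (l : ℚ) = ∑ j ∈ b, ind a j := by rw [sum_ind, hl]
  have e2 : ∑ j ∈ b, ind a j = ∑ j ∈ b ∩ I, ind a j + ∑ j ∈ b ∩ Iᶜ, ind a j := by
    rw [← Finset.sdiff_eq_inter_compl]
    exact (Finset.sum_inter_add_sum_sdiff b I _).symm
  have e3 : ∑ j ∈ b ∩ I, ind a j = ∑ i ∈ a ∩ I, ind b i := by
    rw [sum_ind, sum_ind]
    congr 2
    ext x
    simp only [Finset.mem_inter]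
    tauto
  have e4 : ∑ j ∈ b ∩ Iᶜ, ind a j = ∑ j ∈ b ∩ Iᶜ, v j + ∑ i ∈ a ∩ I, ∑ j ∈ b ∩ Iᶜ, c i j := by
    rw [Finset.sum_comm, ← Finset.sum_add_distrib]
    apply Finset.sum_congr rfl
    intro j hj
    exact h1 j (Finset.mem_compl.1 (Finset.mem_inter.1 hj).2)
  rw [Finset.sum_add_distrib, e1, e2, e3, e4]
  ring

theorem sum_single {ι : Type} [DecidableEq ι] (i0 : ι) (s : Finset ι) :
    ∑ i ∈ s, (if i = i0 then (1 : ℚ) else 0) = if i0 ∈ s then 1 else 0 := by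
  rw [Finset.sum_ite_eq']

theorem lab : S_LAB := by
  intro hLA ι _ _ l A B hA hAB
  obtain ⟨I, v, c, h1, h2⟩ := hLA ι A hA
  refine ⟨I, v, c, ?_, ?_, ?_, ?_⟩
  · intro a ha j hj
    exact h1 a ha j (Finset.mem_compl.1 hj)
  · intro b hb i hi
    have hg := h2 (fun i => ind b i + ∑ j ∈ b ∩ Iᶜ, c i j) (l - ∑ j ∈ b ∩ Iᶜ, v j)
      (fun a ha => key l I v c a b (h1 a ha) (hAB a ha b hb)) i hi
    have : ind b i + ∑ j ∈ b ∩ Iᶜ, c i j = 0 := hg
    linarith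
  · intro b hb
    obtain ⟨a, ha⟩ := hA
    have hg := h2 (fun i => ind b i + ∑ j ∈ b ∩ Iᶜ, c i j) (l - ∑ j ∈ b ∩ Iᶜ, v j)
      (fun a ha => key l I v c a b (h1 a ha) (hAB a ha b hb))
    have hk := key l I v c a b (h1 a ha) (hAB a ha b hb)
    have h0 : ∑ i ∈ a ∩ I, (ind b i + ∑ j ∈ b ∩ Iᶜ, c i j) = 0 :=
      Finset.sum_eq_zero (fun i hi => hg i (Finset.mem_inter.1 hi).2)
    rw [h0] at hk
    linarith
  · intro i0 hi0
    constructor
    · by_contra hcon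
      push Not at hcon
      have := h2 (fun i => if i = i0 then (1 : ℚ) else 0) 0 (fun a ha => by
        rw [sum_single, if_neg]
        intro h
        exact hcon a ha (Finset.mem_inter.1 h).1) i0 hi0
      simp at this
    · by_contra hcon
      push Not at hcon
      have := h2 (fun i => if i = i0 then (1 : ℚ) else 0) 1 (fun a ha => by
        rw [sum_single, if_pos]
        exact Finset.mem_inter.2 ⟨hcon a ha, hi0⟩) i0 hi0
      simp at this

end Pool.Agent.W863.AHC
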